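import Pool.Agent.K3h83.IN.Stm6
import Pool.Agent.K3h18.IN.Ext2
import Pool.Agent.K3h18.IN.Cen
import Pool.Agent.K3h60.IN.S17

/-!
# Brick C3b: extension of characters of `H` to the stabilizer (written by helper99)

All Sylow subgroups of `T / H` are cyclic, so that a central extension of `T / H` meets its commutator
subgroup trivially.
-/

set_option autoImplicit false
set_option linter.style.haveILetI false

open scoped BigOperators Classical

noncomputable section

namespace Pool.Agent.K3h99.CY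

open Pool.Agent.Helper884 Pool.Agent.K3h3.KB Pool.Agent.K3h3.MK Pool.Agent.K3h83.IN
open Pool.Agent.H254R3.IN
open IC (Irr)
open Representation
open Pool.Agent.K3h85.IN

/-- the Sylow subgroups of a central extension of a subgroup of `B / H` are abelian -/
theorem syl_comm {p : ℕ} [Fact p.Prime] {B E : Type} [Group B] [Finite B] [Group E] [Finite E]
    (Q P H : Subgroup B) (h : LC p Q P H) [H.Normal] (π : E →* B ⧸ H)
    (hc : ∀ z, π z = 1 → z ∈ Subgroup.center E)
    (r : ℕ) [Fact r.Prime] (R : Sylow r E) (a b : R) : a * b = b * a := by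
  haveI := h.nQ
  haveI := h.cyc
  -- elements of `R` have order a power of `r`
  have hord : ∀ u : R, ∃ k : ℕ, (u : E) ^ r ^ k = 1 := by
    intro u
    obtain ⟨k, hk⟩ := R.2 u
    refine ⟨k, ?_⟩
    have := congrArg (fun z : R => (z : E)) hk
    simpa using this
  have hdec : ∀ y ∈ Subgroup.centralizer (Q : Set B), ∃ s ∈ H, ∃ t ∈ P, s * t = y := by
    intro y hy
    rw [h.cen] at hy
    exact Subgroup.mem_sup_of_normal_left.mp hy
  by_cases hrp : r = p
  · subst hrp
    let M : Subgroup (B ⧸ H) := P.map (QuotientGroup.mk' H)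
    haveI : IsCyclic M := by
      refine isCyclic_of_surjective ((QuotientGroup.mk' H).subgroupMap P) ?_
      exact MonoidHom.subgroupMap_surjective _ _
    have hmem : ∀ u : R, π u ∈ M := by
      intro u
      obtain ⟨y, hy⟩ := QuotientGroup.mk'_surjective H (π u)
      obtain ⟨k, hk⟩ := hord u
      have hyk : y ^ r ^ k ∈ H := by
        rw [← QuotientGroup.eq_one_iff, QuotientGroup.mk_pow]
        have : (QuotientGroup.mk y : B ⧸ H) = π u := hy
        rw [this, ← map_pow, hk, map_one]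
      have h1 : y ∈ Subgroup.centralizer (Q : Set B) := by
        rw [h.cen]
        haveI hnC : (H ⊔ P).Normal := by
          rw [← h.cen]
          infer_instance
        rw [← QuotientGroup.eq_one_iff]
        have h2 : (QuotientGroup.mk y : B ⧸ (H ⊔ P)) ^ r ^ k = 1 := by
          rw [← QuotientGroup.mk_pow, QuotientGroup.eq_one_iff]
          exact Subgroup.mem_sup_left hyk
        have h3 : (QuotientGroup.mk y : B ⧸ (H ⊔ P)) ^ (H ⊔ P).index = 1 := by
          have := pow_card_eq_one' (G := B ⧸ (H ⊔ P)) (x := QuotientGroup.mk y)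
          exact this
        have h4 : Nat.Coprime (r ^ k) (H ⊔ P).index :=
          Nat.Coprime.pow_left _ ((Nat.Prime.coprime_iff_not_dvd Fact.out).mpr h.idx)
        have h5 := Nat.dvd_gcd (orderOf_dvd_of_pow_eq_one h2) (orderOf_dvd_of_pow_eq_one h3)
        rw [h4] at h5
        exact orderOf_eq_one_iff.mp (Nat.dvd_one.mp h5)
      obtain ⟨s, hs, t, ht, hst⟩ := hdec _ h1
      refine ⟨t, ht, ?_⟩
      rw [← hy, ← hst, map_mul]
      have h6 : (QuotientGroup.mk' H) s = 1 := (QuotientGroup.eq_one_iff s).mpr hs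
      rw [h6, one_mul]
    let f : R →* M := (π.comp (R : Subgroup E).subtype).codRestrict M hmem
    have hf : f.ker ≤ Subgroup.center R := by
      intro u hu
      have h1 : π u = 1 := by
        have := congrArg (fun z : M => (z : B ⧸ H)) (MonoidHom.mem_ker.mp hu)
        exact this
      have h3 := hc _ h1
      rw [Subgroup.mem_center_iff] at h3 ⊢
      intro g
      exact Subtype.ext (h3 g)
    exact (f.isMulCommutative_of_isCyclic_of_ker_le_center hf).is_comm.comm a b
  · haveI : IsCyclic Q := isCyclic_of_prime_card h.cQ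
    haveI : Fact (Nat.card Q).Prime := by
      rw [h.cQ]
      infer_instance
    haveI : IsCyclic (MulAut Q) :=
      isCyclic_of_surjective (IsCyclic.mulAutMulEquiv Q).symm
        (IsCyclic.mulAutMulEquiv Q).symm.surjective
    let cj : B ⧸ H →* MulAut Q := QuotientGroup.lift H (MulAut.conjNormal (H := Q)) (by
      intro x hx
      have h1 : x ∈ Subgroup.centralizer (Q : Set B) := by
        rw [h.cen]
        exact Subgroup.mem_sup_left hx
      rw [Subgroup.mem_centralizer_iff] at h1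
      ext y
      rw [MulAut.conjNormal_apply, ← h1 y y.2, mul_inv_cancel_right]
      rfl)
    let f : R →* MulAut Q := (cj.comp π).comp (R : Subgroup E).subtype
    have hf : f.ker ≤ Subgroup.center R := by
      intro u hu
      obtain ⟨x, hx⟩ := QuotientGroup.mk'_surjective H (π u)
      have h1 : x ∈ Subgroup.centralizer (Q : Set B) := by
        rw [Subgroup.mem_centralizer_iff]
        intro y hy
        have h2 : (MulAut.conjNormal (H := Q)) x ⟨y, hy⟩ = ⟨y, hy⟩ := by
          have h3 : cj (π u) = 1 := MonoidHom.mem_ker.mp hu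
          rw [← hx] at h3
          have h4 : (MulAut.conjNormal (H := Q)) x = 1 := h3
          rw [h4]
          rfl
        have h4 := congrArg (fun z : Q => (z : B)) h2
        rw [MulAut.conjNormal_apply] at h4
        exact (mul_inv_eq_iff_eq_mul.mp h4).symm
      obtain ⟨s, hs, t, ht, hst⟩ := hdec _ h1
      have h2 : π u = 1 := by
        obtain ⟨k, hk⟩ := hord u
        obtain ⟨m, hm⟩ := h.pP ⟨t, ht⟩
        have hm' : t ^ p ^ m = 1 := by
          have := congrArg (fun z : P => (z : B)) hm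
          simpa using this
        have h6 : (QuotientGroup.mk t : B ⧸ H) = π u := by
          rw [← hx, ← hst, map_mul]
          have h6 : (QuotientGroup.mk' H) s = 1 := (QuotientGroup.eq_one_iff s).mpr hs
          rw [h6, one_mul]
          rfl
        have h5 : (π u) ^ r ^ k = 1 := by
          rw [← map_pow, hk, map_one]
        have h7 : (π u) ^ p ^ m = 1 := by
          rw [← h6, ← QuotientGroup.mk_pow, hm']
          rfl
        have h8 : Nat.Coprime (r ^ k) (p ^ m) :=
          Nat.Coprime.pow _ _ ((Nat.coprime_primes Fact.out Fact.out).mpr hrp)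
        have h9 := Nat.dvd_gcd (orderOf_dvd_of_pow_eq_one h5) (orderOf_dvd_of_pow_eq_one h7)
        rw [h8] at h9
        exact orderOf_eq_one_iff.mp (Nat.dvd_one.mp h9)
      have h3 := hc _ h2
      rw [Subgroup.mem_center_iff] at h3 ⊢
      intro g
      exact Subtype.ext (h3 g)
    exact (f.isMulCommutative_of_isCyclic_of_ker_le_center hf).is_comm.comm a b

/-- the central subgroup over `H` meets the commutator subgroup trivially -/
theorem cen_comm {p : ℕ} [Fact p.Prime] {B E : Type} [Group B] [Finite B] [Group E] [Finite E]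
    (Q P H : Subgroup B) (h : LC p Q P H) [H.Normal] (π : E →* B ⧸ H)
    (hc : ∀ z, π z = 1 → z ∈ Subgroup.center E)
    (x : E) (hx : π x = 1) (hxc : x ∈ commutator E) : x = 1 := by
  by_contra hne
  obtain ⟨r, hr, hrd⟩ := Nat.exists_prime_and_dvd (n := orderOf x)
    (fun h1 => hne (orderOf_eq_one_iff.mp h1))
  haveI : Fact r.Prime := ⟨hr⟩
  obtain ⟨m, hm⟩ := hrd
  have hx0 : 0 < orderOf x := orderOf_pos x
  have hm0 : m ≠ 0 := by
    rintro rfl
    omega
  have hv : orderOf (x ^ m) = r := by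
    rw [orderOf_pow_of_dvd hm0 ⟨r, by rw [hm, mul_comm]⟩, hm]
    exact Nat.mul_div_cancel _ (Nat.pos_of_ne_zero hm0)
  have hpg : IsPGroup r (Subgroup.zpowers (x ^ m)) := by
    refine IsPGroup.of_card (n := 1) ?_
    rw [Nat.card_zpowers, hv, pow_one]
  obtain ⟨R, hR⟩ := hpg.exists_le_sylow
  have h1 := Pool.Agent.K3h18.IN.t_S16 r E R (x ^ m) (Subgroup.pow_mem _ (hc x hx) m)
    (hR (Subgroup.mem_zpowers _)) (Subgroup.pow_mem _ hxc m)
  have h2 : ⁅(R : Subgroup E), (R : Subgroup E)⁆ = ⊥ := by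
    rw [Subgroup.commutator_eq_bot_iff_le_centralizer]
    intro a ha
    rw [Subgroup.mem_centralizer_iff]
    intro b hb
    have := syl_comm Q P H h π hc r R ⟨b, hb⟩ ⟨a, ha⟩
    exact congrArg (fun z : R => (z : E)) this
  rw [h2, Subgroup.mem_bot] at h1
  rw [h1, orderOf_one] at hv
  exact hr.one_lt.ne hv

/-- an invariant irreducible representation of `H` extends to its stabilizer -/
theorem ext_rep {p : ℕ} [Fact p.Prime] {B : Type} [Group B] [Finite B]
    (Q P H : Subgroup B) (h : LC p Q P H) (T : Subgroup B) (hHT : H ≤ T) {V : Type}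
    [AddCommGroup V] [Module ℂ V] [FiniteDimensional ℂ V] (σ : Representation ℂ H V)
    (hσ : σ.IsIrreducible)
    (hinv : ∀ (x : T) (l l' : H), (x : B) * l * (x : B)⁻¹ = l' → σ.character l' = σ.character l) :
    ∃ τ : Representation ℂ T V, ∀ l : H, τ ⟨l, hHT l.2⟩ = σ l := by
  haveI := h.nH
  haveI : Nontrivial V := irr_nontrivial σ hσ
  set j : H →* T := Subgroup.inclusion hHT with hjdef
  have hjc : ∀ l, ((j l : T) : B) = l := fun l => rfl
  have hj : Function.Injective j := Subgroup.inclusion_injective hHT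
  have hjr : ∀ x : T, x ∈ j.range ↔ (x : B) ∈ H := by
    intro x
    constructor
    · rintro ⟨l, rfl⟩
      exact l.2
    · intro hx
      exact ⟨⟨x, hx⟩, Subtype.ext rfl⟩
  have hn : j.range.Normal := by
    constructor
    intro x hx g
    rw [hjr] at hx ⊢
    exact h.nH.conj_mem _ hx g
  obtain ⟨E, _, _, π, ρ, hsurj, hint, hinj⟩ := Pool.Agent.K3h18.IN.main2 j hj hn σ hσ (by
    intro x l l' hl
    exact hinv x l l' (congrArg (fun z : T => (z : B)) hl))
  have hσinv : ∀ l : H, σ l⁻¹ * σ l = 1 := by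
    intro l
    rw [← map_mul, inv_mul_cancel, map_one]
  have hσinv' : ∀ l : H, σ l * σ l⁻¹ = 1 := by
    intro l
    rw [← map_mul, mul_inv_cancel, map_one]
  have hρinv : ∀ x : E, ρ x * ρ x⁻¹ = 1 := by
    intro l
    rw [← map_mul, mul_inv_cancel, map_one]
  -- scalars
  have hsc : ∀ (x : E) (l : H), π x = j l → ∃ c : ℂ, ρ x = c • σ l := by
    intro x l hx
    obtain ⟨c, hc⟩ := schur σ hσ (σ l⁻¹ * ρ x) (by
      intro m v
      have h1 := hint x m (l * m * l⁻¹) (by rw [hx, map_mul, map_mul, map_inv])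
      have h2 : (σ l⁻¹ * ρ x) * σ m = σ m * (σ l⁻¹ * ρ x) := by
        have e : l⁻¹ * (l * m * l⁻¹) = m * l⁻¹ := by group
        rw [mul_assoc, h1, ← mul_assoc, ← map_mul, e, map_mul, mul_assoc]
      exact congrArg (fun f => f v) h2)
    refine ⟨c, ?_⟩
    have h3 : σ l * (σ l⁻¹ * ρ x) = ρ x := by
      rw [← mul_assoc, hσinv', one_mul]
    rw [← h3, hc]
    ext v
    simp
  have huniq : ∀ (l : H) (c c' : ℂ), c • σ l = c' • σ l → c = c' := by
    intro l c c' hcc
    obtain ⟨v, hv⟩ := exists_ne (0 : V)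
    have h1 := congrArg (fun f : V →ₗ[ℂ] V => f (σ l⁻¹ v)) hcc
    have h2 : σ l (σ l⁻¹ v) = v := congrArg (fun f : V →ₗ[ℂ] V => f v) (hσinv' l)
    simp only [LinearMap.smul_apply, h2] at h1
    exact smul_left_injective ℂ hv h1
  set Z : Subgroup E := H.comap (T.subtype.comp π) with hZ
  have hZm : ∀ x : E, x ∈ Z ↔ ((π x : T) : B) ∈ H := fun x => Iff.rfl
  have hsc' : ∀ z : Z, ∃ c : ℂ, ρ z = c • σ ⟨((π z : T) : B), (hZm _).mp z.2⟩ := by
    intro z
    exact hsc z _ (Subtype.ext rfl)
  choose c hc using hsc'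
  have hcl : ∀ (z : Z) (l : H), π z = j l → ρ z = c z • σ l := by
    intro z l hl
    rw [hc z]
    congr 2
    exact Subtype.ext (congrArg (fun y : T => (y : B)) hl)
  let cc : Z →* ℂ :=
    { toFun := c
      map_one' := by
        have h1 := hcl 1 1 (by simp)
        refine huniq 1 _ _ ?_
        rw [← h1]
        simp
      map_mul' := by
        intro z w
        have hz := hcl z ⟨((π z : T) : B), (hZm _).mp z.2⟩ (Subtype.ext rfl)
        have hw := hcl w ⟨((π w : T) : B), (hZm _).mp w.2⟩ (Subtype.ext rfl)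
        have h1 := hcl (z * w) (⟨((π z : T) : B), (hZm _).mp z.2⟩ * ⟨((π w : T) : B), (hZm _).mp w.2⟩)
          (Subtype.ext (by simp [hjc]))
        refine huniq (⟨((π z : T) : B), (hZm _).mp z.2⟩ * ⟨((π w : T) : B), (hZm _).mp w.2⟩) _ _ ?_
        rw [← h1, Subgroup.coe_mul, map_mul, hz, hw, map_mul, smul_mul_smul_comm] }
  let mu : Z →* ℂˣ := (MonoidHom.toHomUnits cc)⁻¹
  have hmu : ∀ z : Z, ((mu z : ℂˣ) : ℂ) * c z = 1 := by
    intro z
    have h1 : ((MonoidHom.toHomUnits cc z : ℂˣ) : ℂ) = c z := rfl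
    rw [← h1]
    exact Units.inv_mul _
  -- the kernel
  let K : Subgroup E :=
    { carrier := {x | ∃ l : H, π x = j l ∧ ρ x = σ l}
      one_mem' := ⟨1, by simp, by simp⟩
      mul_mem' := by
        rintro x y ⟨l, h1, h2⟩ ⟨m, h3, h4⟩
        exact ⟨l * m, by rw [map_mul, map_mul, h1, h3], by rw [map_mul, map_mul, h2, h4]⟩
      inv_mem' := by
        rintro x ⟨l, h1, h2⟩
        refine ⟨l⁻¹, by rw [map_inv, map_inv, h1], ?_⟩
        have h3 : ρ x⁻¹ * (ρ x * σ l⁻¹) = σ l⁻¹ := by
          rw [← mul_assoc, ← map_mul, inv_mul_cancel, map_one, one_mul]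
        rw [h2, hσinv', mul_one] at h3
        exact h3 }
  have hK : ∀ x, x ∈ K ↔ ∃ l : H, π x = j l ∧ ρ x = σ l := fun x => Iff.rfl
  have hconj : ∀ (y x : E) (l : H) (a : ℂ), π x = j l → ρ x = a • σ l →
      ∃ l' : H, π (y * x * y⁻¹) = j l' ∧ ρ (y * x * y⁻¹) = a • σ l' := by
    intro y x l a h1 h2
    have h3 : ((π y : T) : B) * l * ((π y : T) : B)⁻¹ ∈ H := h.nH.conj_mem _ l.2 _
    refine ⟨⟨_, h3⟩, ?_, ?_⟩
    · rw [map_mul, map_mul, map_inv, h1]
      exact Subtype.ext rfl
    · have h4 := hint y l ⟨_, h3⟩ (Subtype.ext rfl)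
      rw [map_mul, map_mul, h2, mul_smul_comm, h4, smul_mul_assoc, mul_assoc, hρinv, mul_one]
  haveI hKn : K.Normal := by
    constructor
    intro x hx y
    obtain ⟨l, h1, h2⟩ := (hK x).mp hx
    obtain ⟨l', h3, h4⟩ := hconj y x l 1 h1 (by rw [h2, one_smul])
    exact (hK _).mpr ⟨l', h3, by rw [h4, one_smul]⟩
  let πb : E ⧸ K →* B ⧸ H := QuotientGroup.map K H (T.subtype.comp π) (by
    intro x hx
    obtain ⟨l, h1, h2⟩ := (hK x).mp hx
    rw [Subgroup.mem_comap]
    change ((π x : T) : B) ∈ H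
    rw [h1]
    exact l.2)
  have hcen : ∀ z, πb z = 1 → z ∈ Subgroup.center (E ⧸ K) := by
    intro z hz
    obtain ⟨x, rfl⟩ := QuotientGroup.mk'_surjective K z
    have h1 : ((π x : T) : B) ∈ H := (QuotientGroup.eq_one_iff _).mp hz
    obtain ⟨l0, hxl⟩ : ∃ l0 : H, π x = j l0 := ⟨⟨_, h1⟩, Subtype.ext rfl⟩
    obtain ⟨a, ha⟩ := hsc x _ hxl
    rw [Subgroup.mem_center_iff]
    intro w
    obtain ⟨y, rfl⟩ := QuotientGroup.mk'_surjective K w
    obtain ⟨l', h3, h4⟩ := hconj y x _ a hxl ha
    have ha0 : a ≠ 0 := by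
      rintro rfl
      rw [zero_smul] at ha
      obtain ⟨v, hv⟩ := exists_ne (0 : V)
      have h5 := congrArg (fun f : V →ₗ[ℂ] V => f v) (hρinv x)
      rw [ha] at h5
      simp at h5
      exact hv h5.symm
    have h5 : y * x * y⁻¹ * x⁻¹ ∈ K := by
      rw [hK]
      refine ⟨l' * l0⁻¹, ?_, ?_⟩
      · rw [map_mul, h3, map_mul, map_inv, map_inv, hxl]
      · rw [map_mul, h4, map_mul]
        have h6 : ρ x⁻¹ = a⁻¹ • σ l0⁻¹ := by
          have h7 : ρ x⁻¹ * (ρ x * (a⁻¹ • σ l0⁻¹)) = a⁻¹ • σ l0⁻¹ := by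
            rw [← mul_assoc, ← map_mul, inv_mul_cancel, map_one, one_mul]
          rw [ha, smul_mul_smul_comm, mul_inv_cancel₀ ha0, hσinv', one_smul, mul_one] at h7
          exact h7
        rw [h6, smul_mul_smul_comm, mul_inv_cancel₀ ha0, one_smul]
    have h6 : (QuotientGroup.mk' K) (y * x * y⁻¹ * x⁻¹) = 1 := (QuotientGroup.eq_one_iff _).mpr h5
    rw [map_mul, map_mul, map_mul, map_inv, map_inv] at h6
    have h7 := mul_inv_eq_one.mp h6
    exact mul_inv_eq_iff_eq_mul.mp h7
  -- extension of the linear character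
  obtain ⟨f, hf⟩ := Pool.Agent.K3h60.IN.t_S17 E Z mu (by
    intro z hz
    have h1 : (QuotientGroup.mk' K) (z : E) = 1 := by
      refine cen_comm Q P H h πb hcen _ ?_ ?_
      · exact (QuotientGroup.eq_one_iff _).mpr ((hZm _).mp z.2)
      · have h2 := Subgroup.mem_map_of_mem (QuotientGroup.mk' K) hz
        rw [commutator_def, Subgroup.map_commutator] at h2
        rw [commutator_def]
        exact Subgroup.commutator_mono le_top le_top h2
    have h2 : (z : E) ∈ K := (QuotientGroup.eq_one_iff _).mp h1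
    obtain ⟨l, h3, h4⟩ := (hK _).mp h2
    have h5 := hcl z l h3
    have h6 : c z = 1 := by
      refine huniq l _ _ ?_
      rw [← h5, h4, one_smul]
    have h7 := hmu z
    rw [h6, mul_one] at h7
    exact Units.ext h7)
  -- the representation of `E`
  let τE : Representation ℂ E V :=
    { toFun := fun x => ((f x : ℂˣ) : ℂ) • ρ x
      map_one' := by simp
      map_mul' := fun x y => by
        rw [map_mul, map_mul, smul_mul_smul_comm, Units.val_mul] }
  have hτ : ∀ x, τE x = ((f x : ℂˣ) : ℂ) • ρ x := fun x => rfl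
  have hτl : ∀ (x : E) (l : H), π x = j l → τE x = σ l := by
    intro x l hx
    have hxZ : x ∈ Z := by
      rw [hZm, hx]
      exact l.2
    have h1 := hcl ⟨x, hxZ⟩ l hx
    have h2 := hf ⟨x, hxZ⟩
    have h3 := hmu ⟨x, hxZ⟩
    have h4 : ((f x : ℂˣ) : ℂ) = ((mu ⟨x, hxZ⟩ : ℂˣ) : ℂ) := congrArg (fun u : ℂˣ => (u : ℂ)) h2
    have h5 : ρ x = c ⟨x, hxZ⟩ • σ l := h1
    rw [hτ, h4, h5, smul_smul, h3, one_smul]
  have hker : ∀ x ∈ π.ker, τE x = 1 := by
    intro x hx
    rw [hτl x 1 (by rw [MonoidHom.mem_ker.mp hx, map_one]), map_one]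
  have hfac : ∀ x y, π x = π y → τE x = τE y := by
    intro x y hxy
    have h1 : y⁻¹ * x ∈ π.ker := by
      rw [MonoidHom.mem_ker, map_mul, map_inv, hxy, inv_mul_cancel]
    have h2 := hker _ h1
    have h3 : τE x = τE y * τE (y⁻¹ * x) := by
      rw [← map_mul]
      congr 1
      group
    rw [h3, h2, mul_one]
  choose g hg using hsurj
  let τ : Representation ℂ T V :=
    { toFun := fun t => τE (g t)
      map_one' := by
        rw [hfac (g 1) 1 (by rw [hg, map_one]), map_one]
      map_mul' := fun s t => by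
        rw [← map_mul]
        refine hfac _ _ ?_
        rw [hg, map_mul, hg, hg] }
  refine ⟨τ, fun l => ?_⟩
  exact hτl (g ⟨l, hHT l.2⟩) l (hg _)

/-- a representation whose restriction is irreducible is irreducible -/
theorem irr_of_res {B : Type} [Group B] (H T : Subgroup B) (hHT : H ≤ T) {V : Type}
    [AddCommGroup V] [Module ℂ V] [FiniteDimensional ℂ V] (σ : Representation ℂ H V)
    (hσ : σ.IsIrreducible) (τ : Representation ℂ T V) (h : ∀ l : H, τ ⟨l, hHT l.2⟩ = σ l) :
    τ.IsIrreducible := by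
  let f : Subrepresentation τ → Subrepresentation σ := fun W => ⟨W.toSubmodule, fun l v hv => by
    rw [← h l]
    exact W.apply_mem_toSubmodule _ hv⟩
  have hf : ∀ W, (f W).toSubmodule = W.toSubmodule := fun W => rfl
  haveI : Nontrivial V := irr_nontrivial σ hσ
  haveI : Nontrivial (Subrepresentation τ) := by
    refine ⟨⟨⊥, ⊤, ?_⟩⟩
    intro hbt
    have h1 : (⊥ : Submodule ℂ V) = ⊤ := congrArg (fun W => W.toSubmodule) hbt
    exact bot_ne_top h1
  constructor
  intro W
  rcases hσ.eq_bot_or_eq_top (f W) with h1 | h1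
  · left
    exact Subrepresentation.toSubmodule_injective (congrArg (fun W => W.toSubmodule) h1)
  · right
    exact Subrepresentation.toSubmodule_injective (congrArg (fun W => W.toSubmodule) h1)

theorem t_C3b : C3b := by
  intro p _ B _ _ Q P H h φ hφ T hT
  have hHT : H ≤ T := by
    intro b hb
    rw [hT]
    intro l l' hl
    have hl2 : l' = ⟨b, hb⟩ * l * (⟨b, hb⟩ : H)⁻¹ := Subtype.ext hl.symm
    rw [hl2]
    exact hφ.conj l ⟨b, hb⟩
  obtain ⟨V, iV, iM, iF, σ, hσ, rfl⟩ := hφ
  obtain ⟨τ, hτ⟩ := ext_rep Q P H h T hHT σ hσ (by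
    intro x l l' hl
    exact (hT x).mp x.2 l l' hl)
  refine ⟨τ.character, ⟨V, iV, iM, iF, τ, irr_of_res H T hHT σ hσ τ hτ, rfl⟩, ?_⟩
  intro l t ht
  have h1 : t = ⟨l, hHT l.2⟩ := Subtype.ext ht
  rw [h1]
  change LinearMap.trace ℂ V (τ _) = LinearMap.trace ℂ V (σ l)
  rw [hτ]

end Pool.Agent.K3h99.CY
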